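import Pool.Agent.H693.SR.Stm
import Pool.Graph.R_pool_sql_team_seeded_3997aac3.Q265.PR.D

/-!
# Project SR of helper693, task A (helper227): many power nonresidues below `p ^ (1 / (4 e ^ β) + ε)`

The proof is that of `Pool.Agent.Q265.PR.least_fix`, with a count in the place of the contradiction.
-/

set_option autoImplicit false

namespace H227.SR

open Finset Pool.Agent.H471R4.BW Pool.Agent.Q265.PR

open Classical in
/-- the number of the `m ≤ X` all whose prime factors have the property `P` -/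
theorem sieve_count (X : ℕ) (T : Finset ℕ) (P : ℕ → Prop)
    (hT : ∀ q : ℕ, q.Prime → q ≤ X → ¬ P q → q ∈ T) :
    (X : ℝ) - X * ∑ q ∈ T, (1 : ℝ) / q ≤ #{m ∈ Icc 1 X | ∀ q : ℕ, q.Prime → q ∣ m → P q} := by
  have h1 : Icc 1 X ⊆ {m ∈ Icc 1 X | ∀ q : ℕ, q.Prime → q ∣ m → P q} ∪
      T.biUnion (fun q => (Icc 1 X).filter (fun m => q ∣ m)) := by
    intro m hm
    rw [mem_union, mem_filter, mem_biUnion]
    by_cases h : ∀ q : ℕ, q.Prime → q ∣ m → P q
    · exact Or.inl ⟨hm, h⟩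
    · right
      push Not at h
      obtain ⟨q, hq, hqm, hqy⟩ := h
      rw [mem_Icc] at hm
      have := Nat.le_of_dvd (by omega) hqm
      exact ⟨q, hT q hq (by omega) hqy, mem_filter.2 ⟨mem_Icc.2 hm, hqm⟩⟩
  have h2 := (card_le_card h1).trans (card_union_le _ _)
  rw [Nat.card_Icc, Nat.add_sub_cancel] at h2
  have h3 : ((T.biUnion (fun q => (Icc 1 X).filter (fun m => q ∣ m))).card : ℝ) ≤
      X * ∑ q ∈ T, (1 : ℝ) / q := by
    have h4 : (T.biUnion (fun q => (Icc 1 X).filter (fun m => q ∣ m))).card ≤ ∑ q ∈ T, X / q := by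
      refine card_biUnion_le.trans (le_of_eq (sum_congr rfl fun q _ => ?_))
      have h := Nat.Ioc_filter_dvd_card_eq_div X q
      rw [← h]
      congr 1
    rw [mul_sum]
    refine le_trans (Nat.cast_le.2 h4) ?_
    push_cast
    refine sum_le_sum fun q _ => ?_
    rw [mul_one_div]
    exact Nat.cast_div_le
  have h5 : (X : ℝ) ≤ #{m ∈ Icc 1 X | ∀ q : ℕ, q.Prime → q ∣ m → P q} +
      (T.biUnion (fun q => (Icc 1 X).filter (fun m => q ∣ m))).card := by
    exact_mod_cast h2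
  linarith

set_option maxHeartbeats 1000000 in
/-- **Task A** -/
theorem t_A : H693SR.S_A := by
  intro L hL ε hε
  classical
  obtain ⟨η, hηdef⟩ : ∃ η, η = min ε (1 / 16) := ⟨_, rfl⟩
  have hη : 0 < η := by rw [hηdef]; exact lt_min hε (by norm_num)
  have hηε : η ≤ ε := by rw [hηdef]; exact min_le_left _ _
  have hη16 : η ≤ 1 / 16 := by rw [hηdef]; exact min_le_right _ _
  have hl2 : (2 : ℝ) ≤ L := by exact_mod_cast hL
  have hL0' : (0 : ℝ) < L := by linarith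
  obtain ⟨β, hβdef⟩ : ∃ β : ℝ, β = 1 - 1 / (L : ℝ) := ⟨_, rfl⟩
  rw [← hβdef]
  have hβ : 1 / 2 ≤ β := by
    rw [hβdef]
    have : 1 / (L : ℝ) ≤ 1 / 2 := one_div_le_one_div_of_le (by norm_num) hl2
    linarith
  have hrho := rho_l β η hβ hη
  obtain ⟨b, hb⟩ : ∃ b, b = 1 / (4 * Real.exp β) + 3 / 4 * η := ⟨_, rfl⟩
  have hb0 : 0 < b := by rw [hb]; positivity
  rw [← hb] at hrho
  obtain ⟨γ, hγ⟩ : ∃ γ, γ = β - Real.log ((1 / 4 + η / 2) / b) := ⟨_, rfl⟩
  have hγ0 : 0 < γ := by rw [hγ]; linarith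
  obtain ⟨C, hC0, hC⟩ := Pool.Agent.Helper923.HMertens.mertens_ratio
  obtain ⟨N0, hN0⟩ := bfm (bin (mom tup) nu1 nu2b shf hol) (η / 4) (γ / 3) 1
    (fun r => 2 * (r : ℝ)) (by positivity) (by positivity) one_pos (fun r => by positivity)
  obtain ⟨L0, hL0⟩ : ∃ L0 : ℝ, Real.log 2 / (η / 4) ≤ L0 ∧ Real.log 2 / b ≤ L0 ∧
      3 * C / (γ * b) < L0 ∧ 1 ≤ L0 :=
    ⟨max (Real.log 2 / (η / 4)) (max (Real.log 2 / b) (max (3 * C / (γ * b) + 1) 1)),
      le_max_left _ _, (le_max_left _ _).trans (le_max_right _ _),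
      lt_of_lt_of_le (lt_add_one _) (((le_max_left _ _).trans (le_max_right _ _)).trans
        (le_max_right _ _)),
      ((le_max_right _ _).trans (le_max_right _ _)).trans (le_max_right _ _)⟩
  obtain ⟨hL1, hL2, hL3, hL4⟩ := hL0
  refine ⟨γ / 3, max N0 (max 1 ⌈Real.exp L0⌉₊), by positivity, fun p hp hpp l hl hLl hd => ?_⟩
  have hl0 : (0 : ℝ) < l := by exact_mod_cast hl.pos
  have hNN0 : N0 ≤ p := (le_max_left _ _).trans hp
  have hNexp : Real.exp L0 ≤ p := by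
    have : ⌈Real.exp L0⌉₊ ≤ p := ((le_max_right _ _).trans (le_max_right _ _)).trans hp
    exact (Nat.le_ceil _).trans (by exact_mod_cast this)
  have : Fact p.Prime := ⟨hpp⟩
  have : NeZero p := ⟨hpp.ne_zero⟩
  have hNr1 : (1 : ℝ) ≤ p := by exact_mod_cast hpp.one_lt.le
  have hNpos : (0 : ℝ) < p := by linarith
  have hlog : L0 ≤ Real.log p := (Real.le_log_iff_exp_le hNpos).mpr hNexp
  have hLpos : 0 < Real.log p := by linarith
  have hpow : ∀ t : ℝ, 0 < t → Real.log 2 / t ≤ Real.log p → (2 : ℝ) ≤ (p : ℝ) ^ t := by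
    intro t ht hle
    rw [div_le_iff₀ ht] at hle
    rw [Real.rpow_def_of_pos hNpos]
    calc (2 : ℝ) = Real.exp (Real.log 2) := (Real.exp_log (by norm_num)).symm
      _ ≤ Real.exp (Real.log p * t) := Real.exp_le_exp.mpr hle
  have hqn : (2 : ℝ) ≤ (p : ℝ) ^ (η / 4) := hpow _ (by positivity) (hL1.trans hlog)
  obtain ⟨y, hydef⟩ : ∃ y : ℕ, y = ⌊(p : ℝ) ^ (1 / (4 * Real.exp β) + η)⌋₊ := ⟨_, rfl⟩
  have hyup : y ≤ ⌊(p : ℝ) ^ (1 / (4 * Real.exp β) + ε)⌋₊ := by
    rw [hydef]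
    exact Nat.floor_le_floor (Real.rpow_le_rpow_of_exponent_le hNr1 (by linarith))
  have hyb : (p : ℝ) ^ b < y := by
    have h1 : (p : ℝ) ^ (1 / (4 * Real.exp β) + η) < y + 1 := by
      rw [hydef]
      exact Nat.lt_floor_add_one _
    have h2 : (p : ℝ) ^ (1 / (4 * Real.exp β) + η) = (p : ℝ) ^ (η / 4) * (p : ℝ) ^ b := by
      rw [← Real.rpow_add hNpos, hb]
      congr 1
      ring
    have h3 : (1 : ℝ) ≤ (p : ℝ) ^ b := Real.one_le_rpow hNr1 hb0.le
    rw [h2] at h1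
    nlinarith
  have hy2 : (2 : ℝ) < y := lt_of_le_of_lt (hpow b hb0 (hL2.trans hlog)) hyb
  have hy2' : 2 ≤ y := by
    have : (2 : ℕ) < y := by exact_mod_cast hy2
    omega
  have hypos : (0 : ℝ) < y := by linarith
  have hlogy : b * Real.log p < Real.log y := by
    have := Real.log_lt_log (Real.rpow_pos_of_pos hNpos b) hyb
    rwa [Real.log_rpow hNpos] at this
  have hlogypos : 0 < Real.log y := by
    have : 0 < b * Real.log p := by positivity
    linarith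
  -- X
  obtain ⟨X, hXdef⟩ : ∃ X : ℕ, X = ⌈(p : ℝ) ^ (1 / 4 + η / 4)⌉₊ := ⟨_, rfl⟩
  have hX1 : (p : ℝ) ^ (1 / 4 + η / 4) ≤ X := by rw [hXdef]; exact Nat.le_ceil _
  have hXpow : (X : ℝ) ≤ (p : ℝ) ^ (1 / 4 + η / 2) := by
    have h1 : (X : ℝ) ≤ (p : ℝ) ^ (1 / 4 + η / 4) + 1 := by
      rw [hXdef]; exact (Nat.ceil_lt_add_one (by positivity)).le
    have h2 : (1 : ℝ) ≤ (p : ℝ) ^ (1 / 4 + η / 4) := Real.one_le_rpow hNr1 (by positivity)
    have h4 : (p : ℝ) ^ (1 / 4 + η / 2) = (p : ℝ) ^ (η / 4) * (p : ℝ) ^ (1 / 4 + η / 4) := by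
      rw [← Real.rpow_add hNpos]; congr 1; ring
    rw [h4]
    nlinarith
  have hX2 : (X : ℝ) ≤ Real.sqrt p := by
    rw [Real.sqrt_eq_rpow]
    exact hXpow.trans (Real.rpow_le_rpow_of_exponent_le hNr1 (by linarith))
  have hXge1 : (1 : ℝ) ≤ X := (Real.one_le_rpow hNr1 (by positivity)).trans hX1
  have hXpos : (0 : ℝ) < X := by linarith
  have hXp : X < p := by
    have h1 : (X : ℝ) < p := by
      refine lt_of_le_of_lt (hXpow.trans (Real.rpow_le_rpow_of_exponent_le hNr1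
        (show (1 / 4 + η / 2 : ℝ) ≤ 1 / 2 by linarith))) ?_
      have h2 : (p : ℝ) ^ ((1 : ℝ) / 2) < (p : ℝ) ^ (1 : ℝ) :=
        Real.rpow_lt_rpow_of_exponent_lt (by exact_mod_cast hpp.one_lt) (by norm_num)
      rwa [Real.rpow_one] at h2
    exact_mod_cast h1
  obtain ⟨χ, hχ⟩ := exists_chi p l hl hd
  have hχl : χ ^ l = 1 := by rw [← hχ]; exact pow_orderOf_eq_one χ
  have hsum : ∀ ψ : DirichletCharacter ℂ p, ψ ≠ 1 → ‖shortSum p ψ X‖ ≤ γ / 3 * X := fun ψ hψ =>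
    hN0 p hNN0 ψ (Pool.Agent.Y165.HN.fam_all p ψ hψ) X hX1 hX2
  have hcount := count_one p l X hl hXp χ hχ (γ / 3) hsum (by positivity)
  -- the nonresidues up to `y`
  obtain ⟨Bs, hBs⟩ : ∃ Bs : ℝ, Bs = ∑ q ∈ (Icc 1 y).filter
      (fun q : ℕ => q.Prime ∧ ((q : ℕ) : ZMod p) ^ ((p - 1) / l) ≠ 1), (1 : ℝ) / q := ⟨_, rfl⟩
  have hmono : Bs ≤ ∑ q ∈ (Icc 1 ⌊(p : ℝ) ^ (1 / (4 * Real.exp β) + ε)⌋₊).filter
      (fun q : ℕ => q.Prime ∧ ((q : ℕ) : ZMod p) ^ ((p - 1) / l) ≠ 1), (1 : ℝ) / q := by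
    rw [hBs]
    refine sum_le_sum_of_subset_of_nonneg ?_ (fun q _ _ => by positivity)
    exact filter_subset_filter _ (Icc_subset_Icc le_rfl hyup)
  refine le_trans ?_ hmono
  have hsub : (Icc 1 X).filter (fun m : ℕ => ∀ q : ℕ, q.Prime → q ∣ m →
      ((q : ℕ) : ZMod p) ^ ((p - 1) / l) = 1 ∧ q ≤ y) ⊆
      (Icc 1 X).filter (fun m : ℕ => χ ((m : ℕ) : ZMod p) = 1) := by
    intro m hm
    rw [mem_filter, mem_Icc] at hm ⊢
    refine ⟨hm.1, vin_one p χ m (by omega) fun q hq hqm => ?_⟩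
    exact chi_one p l hl hd χ hχl _ (hm.2 q hq hqm).1
  have hcard : ((#{m ∈ Icc 1 X | ∀ q : ℕ, q.Prime → q ∣ m →
      ((q : ℕ) : ZMod p) ^ ((p - 1) / l) = 1 ∧ q ≤ y} : ℕ) : ℝ) ≤
      #{m ∈ Icc 1 X | χ ((m : ℕ) : ZMod p) = 1} := by
    exact_mod_cast card_le_card hsub
  have hsm := (sieve_count X ((Ioc y X).filter Nat.Prime ∪ (Icc 1 y).filter
      (fun q : ℕ => q.Prime ∧ ((q : ℕ) : ZMod p) ^ ((p - 1) / l) ≠ 1))
      (fun q => ((q : ℕ) : ZMod p) ^ ((p - 1) / l) = 1 ∧ q ≤ y) (by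
    intro q hq hqX hnot
    rw [mem_union, mem_filter, mem_filter, mem_Ioc, mem_Icc]
    by_cases hqy : q ≤ y
    · right
      exact ⟨⟨hq.one_lt.le, hqy⟩, hq, fun h => hnot ⟨h, hqy⟩⟩
    · left
      exact ⟨⟨by omega, hqX⟩, hq⟩)).trans hcard
  rw [sum_union (by
    rw [disjoint_left]
    intro q h1 h2
    rw [mem_filter, mem_Ioc] at h1
    rw [mem_filter, mem_Icc] at h2
    omega), ← hBs] at hsm
  -- the sum over the primes
  have hprim : ∑ q ∈ (Ioc y X).filter Nat.Prime, (1 : ℝ) / q ≤ β - γ + γ / 3 := by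
    have hCy : C / Real.log y ≤ γ / 3 := by
      rw [div_le_iff₀ hlogypos]
      have h5 : 3 * C < Real.log p * (γ * b) := by
        have := lt_of_lt_of_le hL3 hlog
        rwa [div_lt_iff₀ (by positivity)] at this
      nlinarith [mul_lt_mul_of_pos_left hlogy hγ0]
    rcases le_or_gt X y with hXy | hXy
    · rw [Finset.Ioc_eq_empty_of_le hXy, Finset.filter_empty, Finset.sum_empty]
      have h1 : 0 ≤ Real.log ((1 / 4 + η / 2) / b) := by
        apply Real.log_nonneg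
        rw [le_div_iff₀ hb0, one_mul, hb]
        have h2 : 1 / (4 * Real.exp β) ≤ 1 / (4 * (3 / 2)) := by
          apply one_div_le_one_div_of_le (by norm_num)
          have := Real.add_one_le_exp β
          linarith
        linarith
      have : β - γ = Real.log ((1 / 4 + η / 2) / b) := by rw [hγ]; ring
      rw [this]
      positivity
    · have hm := hC y X hy2' hXy.le
      have hm2 := (abs_le.mp hm).2
      have hlogX : Real.log X ≤ (1 / 4 + η / 2) * Real.log p := by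
        have := Real.log_le_log hXpos hXpow
        rwa [Real.log_rpow hNpos] at this
      have hlogXpos : 0 < Real.log X := by
        apply Real.log_pos
        have : 1 < X := by omega
        exact_mod_cast this
      have hratio : Real.log X / Real.log y ≤ (1 / 4 + η / 2) / b := by
        rw [div_le_div_iff₀ hlogypos hb0]
        calc Real.log X * b ≤ ((1 / 4 + η / 2) * Real.log p) * b := by gcongr
          _ = (1 / 4 + η / 2) * (b * Real.log p) := by ring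
          _ ≤ (1 / 4 + η / 2) * Real.log y := by gcongr
      have hlr : Real.log (Real.log X / Real.log y) ≤ β - γ := by
        rw [hγ]
        have := Real.log_le_log (div_pos hlogXpos hlogypos) hratio
        linarith
      linarith
  have hS : (#{m ∈ Icc 1 X | χ ((m : ℕ) : ZMod p) = 1} : ℝ) ≤ (1 - β) * X + γ / 3 * X := by
    have h1 : (#{m ∈ Icc 1 X | χ ((m : ℕ) : ZMod p) = 1} : ℝ) ≤ X / l + γ / 3 * X := by
      rw [← sub_nonneg]
      have h2 : 0 ≤ (l : ℝ) * (X / l + γ / 3 * X -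
          (#{m ∈ Icc 1 X | χ ((m : ℕ) : ZMod p) = 1} : ℝ)) := by
        have h3 : (l : ℝ) * (X / l) = X := by field_simp
        rw [mul_sub, mul_add, h3]
        linarith
      exact nonneg_of_mul_nonneg_right h2 hl0
    have h4 : (X : ℝ) / l ≤ X / L :=
      div_le_div_of_nonneg_left hXpos.le hL0' (by exact_mod_cast hLl)
    have h5 : (1 - β) * (X : ℝ) = X / L := by
      rw [hβdef]
      ring
    rw [h5]
    linarith
  have h6 := mul_le_mul_of_nonneg_left hprim hXpos.le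
  have h7 : (X : ℝ) * (γ / 3) ≤ X * Bs := by
    have e1 : (X : ℝ) * (∑ q ∈ (Ioc y X).filter Nat.Prime, (1 : ℝ) / q + Bs) =
        X * ∑ q ∈ (Ioc y X).filter Nat.Prime, (1 : ℝ) / q + X * Bs := by ring
    have e2 : (X : ℝ) * (β - γ + γ / 3) = X * β - 2 * (X * (γ / 3)) := by ring
    have e3 : (1 - β) * (X : ℝ) + γ / 3 * X = X - X * β + X * (γ / 3) := by ring
    rw [e1] at hsm
    rw [e2] at h6
    rw [e3] at hS
    linarith only [hsm, h6, hS]
  exact le_of_mul_le_mul_left h7 hXpos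

end H227.SR
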